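import Mathlib

set_option autoImplicit false
set_option linter.unusedSimpArgs false

namespace Pool.Agent.Work.MP_cacfbf_al


/-- S_4 vanishes on 2x2 matrices over ZMod 3. -/
theorem s4_zero (r : Fin 4 → Matrix (Fin 2) (Fin 2) (ZMod 3)) :
    (∑ σ : Equiv.Perm (Fin 4),
      ((Equiv.Perm.sign σ : ℤˣ) : ℤ) • (List.ofFn fun i => r (σ i)).prod) = 0 := by
  have key : MultilinearMap.alternatization
      (MultilinearMap.mkPiAlgebraFin (ZMod 3) 4 (Matrix (Fin 2) (Fin 2) (ZMod 3))) = 0 := by
    refine Module.Basis.ext_alternating (Matrix.stdBasis (ZMod 3) (Fin 2) (Fin 2)) ?_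
    intro v hv
    have hb : ∀ p : Fin 2 × Fin 2, Matrix.stdBasis (ZMod 3) (Fin 2) (Fin 2) p
        = Matrix.of (fun i j => if i = p.1 ∧ j = p.2 then (1 : ZMod 3) else 0) := by
      intro p
      obtain ⟨a, b⟩ := p
      rw [Matrix.stdBasis_eq_single]
      ext i j
      simp [Matrix.single, eq_comm]
    simp only [MultilinearMap.alternatization_apply, MultilinearMap.domDomCongr_apply,
      MultilinearMap.mkPiAlgebraFin_apply, hb, AlternatingMap.zero_apply]
    revert v hv
    decide +kernel
  have h2 := congrArg (fun g => g r) key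
  simp only [MultilinearMap.alternatization_apply, MultilinearMap.domDomCongr_apply,
      MultilinearMap.mkPiAlgebraFin_apply, AlternatingMap.zero_apply] at h2
  rw [← h2]
  rfl



section rel
variable {A : Type*} [Ring A]

/-- Structure: elements x, y with x²=0,y²=0,(xy)^4=xy. -/
theorem exists_xy (e f h p : A) (h3 : (3 : A) = 0) (hef : e * f = f * e + h)
    (hhe : h * e = e * h + 2 * e) (hhf : h * f = f * h - 2 * f) (hh : h * h * h = h)
    (hf : f * f * f = 0) (hp : p = -(h*h+h)) :
    (p * e) * (p * e) = 0 ∧ (f * p) * (f * p) = 0 ∧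
    ((p * e) * (f * p)) ^ 4 = (p * e) * (f * p) := by
  have h2 : (2 : A) = -1 := by
    have : (2 : A) + 1 = 0 := by rw [← h3]; norm_num
    exact eq_neg_of_add_eq_zero_left this
  have m3 : ∀ x : A, x + x + x = 0 := by
    intro x
    have : (3 : A) * x = 0 := by rw [h3, zero_mul]
    rw [← this]; noncomm_ring
  have hhe' : h * e = e * h - e := by rw [hhe, h2]; noncomm_ring
  have hhf' : h * f = f * h + f := by rw [hhf, h2]; noncomm_ring
  have hp1 : h * p = p := by
    rw [hp]; calc h * -(h*h+h) = -(h*h*h + h*h) := by noncomm_ring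
      _ = -(h*h+h) := by rw [hh]; abel
  have hp2 : p * h = p := by
    rw [hp]; calc -(h*h+h) * h = -(h*h*h + h*h) := by noncomm_ring
      _ = -(h*h+h) := by rw [hh]; abel
  have hpp : p * p = p := by
    calc p * p = -(h*h+h) * p := by rw [← hp]
      _ = -(h * (h * p) + h * p) := by noncomm_ring
      _ = -(p + p) := by rw [hp1, hp1]
      _ = p := by
        have := m3 p
        calc -(p+p) = p - (p + p + p) := by noncomm_ring
          _ = p := by rw [this, sub_zero]
  -- pep = 0
  have pep : p * e * p = 0 := by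
    have : p * (h * e) * p = p * (e * h - e) * p := by rw [hhe']
    have l : p * (h * e) * p = p * e * p := by
      calc p * (h * e) * p = (p * h) * e * p := by noncomm_ring
        _ = _ := by rw [hp2]
    have r : p * (e * h - e) * p = 0 := by
      calc p * (e * h - e) * p = p * e * (h * p) - p * e * p := by noncomm_ring
        _ = _ := by rw [hp1, sub_self]
    rw [← l, this, r]
  have pfp : p * f * p = 0 := by
    have : p * (h * f) * p = p * (f * h + f) * p := by rw [hhf']
    have l : p * (h * f) * p = p * f * p := by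
      calc p * (h * f) * p = (p * h) * f * p := by noncomm_ring
        _ = _ := by rw [hp2]
    have r : p * (f * h + f) * p = p * f * p + p * f * p := by
      calc p * (f * h + f) * p = p * f * (h * p) + p * f * p := by noncomm_ring
        _ = _ := by rw [hp1]
    rw [l, r] at this
    calc p * f * p = (p * f * p + p * f * p) - p * f * p := by abel
      _ = 0 := by rw [← this, sub_self]
  refine ⟨?_, ?_, ?_⟩
  · calc (p * e) * (p * e) = (p * e * p) * e := by noncomm_ring
      _ = 0 := by rw [pep, zero_mul]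
  · calc (f * p) * (f * p) = f * (p * f * p) := by noncomm_ring
      _ = 0 := by rw [pfp, mul_zero]
  · obtain ⟨T, hT⟩ : ∃ T : A, T = e * f := ⟨_, rfl⟩
    have hTh : h * T = T * h := by
      rw [hT]
      calc h * (e * f) = (h * e) * f := by noncomm_ring
        _ = (e * h - e) * f := by rw [hhe']
        _ = e * (h * f) - e * f := by noncomm_ring
        _ = e * (f * h + f) - e * f := by rw [hhf']
        _ = _ := by noncomm_ring
    have hTp : p * T = T * p := by
      rw [hp]
      calc -(h*h+h) * T = -(h * (h * T) + h * T) := by noncomm_ring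
        _ = -(h * (T * h) + T * h) := by rw [hTh]
        _ = -(h * T * h + T * h) := by noncomm_ring
        _ = -(T * h * h + T * h) := by rw [hTh]
        _ = _ := by noncomm_ring
    have hxy : (p * e) * (f * p) = T * p := by
      calc (p * e) * (f * p) = (p * T) * p := by rw [hT]; noncomm_ring
        _ = T * (p * p) := by rw [hTp, mul_assoc]
        _ = T * p := by rw [hpp]
    rw [hxy]
    -- T f^2 = f^2 (T + 2h - 6) = f^2(T - h)
    have hfe : f * e = T - h := by rw [hT, hef]; noncomm_ring
    -- T f = f (T + h - 2)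
    have Tf : T * f = f * (T + h - 2) := by
      calc T * f = e * f * f := by rw [hT]
        _ = (f * e + h) * f := by rw [hef]
        _ = f * (e * f) + h * f := by noncomm_ring
        _ = f * T + (f * h - 2 * f) := by rw [hhf, hT]
        _ = _ := by noncomm_ring
    have Tff : T * (f * f) = f * f * (T - h) := by
      calc T * (f * f) = (T * f) * f := by noncomm_ring
        _ = f * (T + h - 2) * f := by rw [Tf]
        _ = f * (T * f) + f * (h * f) - 2 * (f * f) := by noncomm_ring
        _ = f * (f * (T + h - 2)) + f * (f * h - 2 * f) - 2 * (f * f) := by rw [Tf, hhf]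
        _ = f * f * (T - h) + 3 * (f * f * h - 2 * (f * f)) := by noncomm_ring
        _ = _ := by rw [h3]; noncomm_ring
    have e2f2 : e * e * (f * f) * p = (T * T - T) * p := by
      calc e * e * (f * f) * p = e * (T * f) * p := by rw [hT]; noncomm_ring
        _ = e * (f * (T + h - 2)) * p := by rw [Tf]
        _ = (e * f) * (T * p + h * p - 2 * p) := by noncomm_ring
        _ = T * (T * p + p - 2 * p) := by rw [hp1, hT]
        _ = _ := by noncomm_ring
    have e3f3 : (0 : A) = (T * T - T) * (T - 1) * p := by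
      calc (0 : A) = e * e * e * (f * f * f) * p := by rw [hf]; noncomm_ring
        _ = e * e * (T * (f * f)) * p := by rw [hT]; noncomm_ring
        _ = e * e * (f * f * (T - h)) * p := by rw [Tff]
        _ = e * e * (f * f) * (T * p - h * p) := by noncomm_ring
        _ = e * e * (f * f) * (p * T - p) := by rw [hp1, hTp]
        _ = (e * e * (f * f) * p) * (T - 1) := by noncomm_ring
        _ = (T * T - T) * p * (T - 1) := by rw [e2f2]
        _ = (T * T - T) * (p * T - p) := by noncomm_ring
        _ = (T * T - T) * (T * p - p) := by rw [hTp]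
        _ = _ := by noncomm_ring
    have T3 : T * T * T * p = T * T * p + T * T * p - T * p := by
      have : (T * T - T) * (T - 1) * p = T * T * T * p - (T * T * p + T * T * p - T * p) := by
        noncomm_ring
      rw [this] at e3f3
      exact (sub_eq_zero.mp e3f3.symm)
    have T4 : T * T * T * T * p = T * p := by
      calc T * T * T * T * p = T * (T * T * T * p) := by noncomm_ring
        _ = T * (T * T * p + T * T * p - T * p) := by rw [T3]
        _ = T * T * T * p + T * T * T * p - T * T * p := by noncomm_ring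
        _ = (T * T * p + T * T * p - T * p) + (T * T * p + T * T * p - T * p) - T * T * p := by
            rw [T3]
        _ = (T * T * p + T * T * p + T * T * p) - (T * p + T * p + T * p) + T * p := by
            abel
        _ = T * p := by rw [m3, m3]; abel
    calc (T * p) ^ 4 = T * p * (T * p) * (T * p) * (T * p) := by noncomm_ring
      _ = T * (p * T) * p * (T * p) * (T * p) := by noncomm_ring
      _ = T * T * (p * p) * (T * p) * (T * p) := by rw [hTp]; noncomm_ring
      _ = T * T * (p * T) * p * (T * p) := by rw [hpp]; noncomm_ring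
      _ = T * T * T * (p * p) * (T * p) := by rw [hTp]; noncomm_ring
      _ = T * T * T * (p * T) * p := by rw [hpp]; noncomm_ring
      _ = T * T * T * T * (p * p) := by rw [hTp]; noncomm_ring
      _ = T * T * T * T * p := by rw [hpp]
      _ = T * p := T4

/-- matrix units from x,y -/
theorem mat_units (x y : A) (hx : x * x = 0) (hy : y * y = 0) (ha : (x * y) ^ 4 = x * y) :
    ∃ u : Fin 2 → Fin 2 → A, (∀ i j k l, u i j * u k l = if j = k then u i l else 0) ∧
      u 0 0 = (x*y)^3 ∧ u 0 1 = (x*y)^2 * x ∧ u 1 0 = y * (x*y)^3 ∧ u 1 1 = y * (x*y)^2 * x := by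
  obtain ⟨a, hadef⟩ : ∃ a : A, a = x * y := ⟨_, rfl⟩
  rw [← hadef] at ha ⊢
  have a4 : a * a * a * a = a := by rw [← ha.symm.symm]; nth_rewrite 5 [← ha]; noncomm_ring
  have xa : x * a = 0 := by rw [hadef, ← mul_assoc, hx, zero_mul]
  have ay : a * y = 0 := by rw [hadef, mul_assoc, hy, mul_zero]
  refine ⟨fun i j => if i = 0 then (if j = 0 then a*a*a else a*a*x) else
    (if j = 0 then y*(a*a*a) else y*(a*a*x)), ?_, ?_, ?_, ?_, ?_⟩
  · intro i j k l
    have r1 : ∀ z, x * (a * z) = 0 := fun z => by rw [← mul_assoc, xa, zero_mul]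
    have r2 : ∀ z, a * (y * z) = 0 := fun z => by rw [← mul_assoc, ay, zero_mul]
    have r3 : ∀ z, x * (x * z) = 0 := fun z => by rw [← mul_assoc, hx, zero_mul]
    have r4 : ∀ z, y * (y * z) = 0 := fun z => by rw [← mul_assoc, hy, zero_mul]
    have r5 : ∀ z, x * (y * z) = a * z := fun z => by rw [← mul_assoc, ← hadef]
    have r6 : ∀ z, a * (a * (a * (a * z))) = a * z := fun z => by
      calc a * (a * (a * (a * z))) = (a * a * a * a) * z := by noncomm_ring
        _ = a * z := by rw [a4]
    have r7 : a * (a * (a * a)) = a := by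
      calc a * (a * (a * a)) = (a * a * a * a) := by noncomm_ring
        _ = a := by rw [a4]
    fin_cases i <;> fin_cases j <;> fin_cases k <;> fin_cases l <;>
      simp [mul_assoc, r1, r2, r3, r4, r5, r6, r7, xa, ay, hx, hy, ← hadef]
  · simp; noncomm_ring
  · simp; noncomm_ring
  · simp; noncomm_ring
  · simp; noncomm_ring

end rel


open Matrix

attribute [local instance 100] LieRing.ofAssociativeRing
attribute [local instance 100] LieAlgebra.ofAssociativeAlgebra

abbrev M2 := Matrix (Fin 2) (Fin 2) (ZMod 3)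

theorem ad3 (x y : M2) : (LieAlgebra.ad (ZMod 3) M2 x ^ 3) y = ⁅x ^ 3, y⁆ := by
  have h3 : ∀ z : M2, (3 : ℤ) • z = 0 := by
    intro z
    have : (3 : ZMod 3) • z = 0 := by
      have h : (3 : ZMod 3) = 0 := by decide
      rw [h, zero_smul]
    rw [← this]; ext i j; simp
  simp only [pow_succ, pow_zero, one_mul, Module.End.mul_apply, LieAlgebra.ad_apply,
    LieRing.of_associative_ring_bracket]
  have : x * (x * (x * y - y * x) - (x * y - y * x) * x)
      - (x * (x * y - y * x) - (x * y - y * x) * x) * x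
      = (x * x * x * y - y * (x * x * x)) - (3 : ℤ) • (x * x * y * x - x * y * x * x) := by
    noncomm_ring
  rw [this, h3, sub_zero]

theorem jac_char3 {A : Type*} [Ring A] (h3 : (3 : A) = 0) (x y : A) :
    (x + y) ^ 3 - x ^ 3 - y ^ 3 = (x * (x * y - y * x) - (x * y - y * x) * x)
      + (y * (y * x - x * y) - (y * x - x * y) * y) := by
  have : (x + y) ^ 3 - x ^ 3 - y ^ 3 = (x * (x * y - y * x) - (x * y - y * x) * x)
      + (y * (y * x - x * y) - (y * x - x * y) * y) + 3 * (x * y * x + y * x * y) := by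
    noncomm_ring
  rw [this, h3, zero_mul, add_zero]

theorem prod_ofFn_hom {A B : Type*} [Ring A] [Ring B] [Algebra (ZMod 3) A] [Algebra (ZMod 3) B]
    (φ : A →ₙₐ[ZMod 3] B) : ∀ (n : ℕ) (g : Fin (n + 1) → A),
    (List.ofFn fun i => φ (g i)).prod = φ (List.ofFn g).prod := by
  intro n
  induction n with
  | zero => intro g; simp
  | succ n ih =>
    intro g
    calc (List.ofFn fun i => φ (g i)).prod
        = φ (g 0) * (List.ofFn fun i => φ (g (Fin.succ i))).prod := by
          rw [List.ofFn_succ, List.prod_cons]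
      _ = φ (g 0) * φ (List.ofFn fun i => g (Fin.succ i)).prod := by
          rw [ih (fun i => g (Fin.succ i))]
      _ = φ (g 0 * (List.ofFn fun i => g (Fin.succ i)).prod) := (map_mul φ _ _).symm
      _ = φ (List.ofFn g).prod := by rw [← List.prod_cons, ← List.ofFn_succ]

theorem two_ne_pow (k : ℕ) : 2 ≠ 3 ^ k := by
  rcases k with _ | k
  · norm_num
  · intro h
    have h1 : 3 ≤ 3 ^ (k + 1) := by
      calc 3 = 3 ^ 1 := by norm_num
        _ ≤ 3 ^ (k + 1) := Nat.pow_le_pow_right (by norm_num) (by omega)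
    omega

/-- a witness that the standard polynomial of degree four is not zero in the free algebra -/
theorem s4_free_ne : (∑ σ : Equiv.Perm (Fin 4), ((Equiv.Perm.sign σ : ℤˣ) : ℤ) •
      (List.ofFn fun i => FreeAlgebra.ι (ZMod 3) (σ i)).prod : FreeAlgebra (ZMod 3) (Fin 4)) ≠ 0 := by
  intro h
  let w : Fin 4 → Matrix (Fin 3) (Fin 3) (ZMod 3) :=
    ![!![1,0,0;0,0,0;0,0,0], !![0,1,0;0,0,0;0,0,0], !![0,0,0;0,1,0;0,0,0], !![0,0,0;0,0,1;0,0,0]]
  have h2 := congrArg (FreeAlgebra.lift (ZMod 3) w) h
  rw [map_sum, map_zero] at h2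
  have h3 : ∀ σ : Equiv.Perm (Fin 4), (FreeAlgebra.lift (ZMod 3) w)
      (((Equiv.Perm.sign σ : ℤˣ) : ℤ) • (List.ofFn fun i => FreeAlgebra.ι (ZMod 3) (σ i)).prod)
      = ((Equiv.Perm.sign σ : ℤˣ) : ℤ) • (List.ofFn fun i => w (σ i)).prod := by
    intro σ
    rw [map_zsmul, map_list_prod, List.map_ofFn]
    congr 3
    funext i
    simp
  simp only [h3] at h2
  have h4 := congrFun (congrFun h2 0) 2
  revert h4
  decide +kernel

theorem main_false :
    ¬ (∀ (p : ℕ), p.Prime → ∀ (F : Type) [Field F] [CharP F p] (L : Type) [LieRing L] [LieAlgebra F L]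
    (f : L → L),
    (∀ (a : F) (x : L), f (a • x) = a ^ p • f x) →
    (∀ x y : L, (LieAlgebra.ad F L x ^ p) y = ⁅f x, y⁆) →
    (∀ x y : L,
      UniversalEnvelopingAlgebra.ι F (f (x + y)) - UniversalEnvelopingAlgebra.ι F (f x)
        - UniversalEnvelopingAlgebra.ι F (f y)
      = (UniversalEnvelopingAlgebra.ι F x + UniversalEnvelopingAlgebra.ι F y) ^ p
        - UniversalEnvelopingAlgebra.ι F x ^ p - UniversalEnvelopingAlgebra.ι F y ^ p) →
    ∀ R : NonUnitalSubalgebra F (RingQuot (fun a b : UniversalEnvelopingAlgebra F L =>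
        ∃ x : L, a = UniversalEnvelopingAlgebra.ι F x ^ p ∧ b = UniversalEnvelopingAlgebra.ι F (f x))),
    (∃ m : ℕ, ∃ φ : FreeAlgebra F (Fin m), φ ≠ 0 ∧
      ∀ r : Fin m → RingQuot (fun a b : UniversalEnvelopingAlgebra F L =>
        ∃ x : L, a = UniversalEnvelopingAlgebra.ι F x ^ p ∧ b = UniversalEnvelopingAlgebra.ι F (f x)),
        (∀ i, r i ∈ R) → FreeAlgebra.lift F r φ = 0) →
    ∀ n : ℕ, 1 ≤ n →
      (∃ t : ℕ, 1 ≤ t ∧
        ∀ r : Fin (2 * n) → RingQuot (fun a b : UniversalEnvelopingAlgebra F L =>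
          ∃ x : L, a = UniversalEnvelopingAlgebra.ι F x ^ p ∧ b = UniversalEnvelopingAlgebra.ι F (f x)),
          (∀ i, r i ∈ R) →
          (∑ σ : Equiv.Perm (Fin (2 * n)),
            ((Equiv.Perm.sign σ : ℤˣ) : ℤ) • (List.ofFn fun i => r (σ i)).prod) ^ t = 0) →
      (∀ m : ℕ, 1 ≤ m → m < n →
        ¬ ∃ t : ℕ, 1 ≤ t ∧
          ∀ r : Fin (2 * m) → RingQuot (fun a b : UniversalEnvelopingAlgebra F L =>
            ∃ x : L, a = UniversalEnvelopingAlgebra.ι F x ^ p ∧ b = UniversalEnvelopingAlgebra.ι F (f x)),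
            (∀ i, r i ∈ R) →
            (∑ σ : Equiv.Perm (Fin (2 * m)),
              ((Equiv.Perm.sign σ : ℤˣ) : ℤ) • (List.ofFn fun i => r (σ i)).prod) ^ t = 0) →
      ∃ k : ℕ, n = p ^ k) := by
  intro H
  have z3 : (3 : ZMod 3) = 0 := by decide
  have char3 : ∀ (A : Type) [Ring A] [Algebra (ZMod 3) A], (3 : A) = 0 := by
    intro A _ _
    have h : algebraMap (ZMod 3) A 3 = 0 := by rw [z3, map_zero]
    rw [← h]; exact (map_ofNat (algebraMap (ZMod 3) A) 3).symm
  have H1 := H 3 Nat.prime_three (ZMod 3) M2 (fun x => x ^ 3)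
    (fun a x => smul_pow a x 3) (fun x y => ad3 x y)
  have hJ : ∀ x y : M2,
      UniversalEnvelopingAlgebra.ι (ZMod 3) ((fun x : M2 => x ^ 3) (x + y))
        - UniversalEnvelopingAlgebra.ι (ZMod 3) ((fun x : M2 => x ^ 3) x)
        - UniversalEnvelopingAlgebra.ι (ZMod 3) ((fun x : M2 => x ^ 3) y)
      = (UniversalEnvelopingAlgebra.ι (ZMod 3) x + UniversalEnvelopingAlgebra.ι (ZMod 3) y) ^ 3
        - UniversalEnvelopingAlgebra.ι (ZMod 3) x ^ 3
        - UniversalEnvelopingAlgebra.ι (ZMod 3) y ^ 3 := by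
    intro x y
    rw [jac_char3 (char3 _)]
    rw [← map_sub, ← map_sub]
    beta_reduce
    rw [jac_char3 (char3 _)]
    have e1 : x * (x * y - y * x) - (x * y - y * x) * x
        + (y * (y * x - x * y) - (y * x - x * y) * y) = ⁅x, ⁅x, y⁆⁆ + ⁅y, ⁅y, x⁆⁆ := by
      simp only [LieRing.of_associative_ring_bracket]
    rw [e1, map_add, LieHom.map_lie, LieHom.map_lie, LieHom.map_lie, LieHom.map_lie]
    simp only [LieRing.of_associative_ring_bracket]
  have H2 := H1 hJ
  clear H1 H
  let rel : UniversalEnvelopingAlgebra (ZMod 3) M2 → UniversalEnvelopingAlgebra (ZMod 3) M2 → Prop :=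
    fun a b => ∃ x : M2, a = UniversalEnvelopingAlgebra.ι (ZMod 3) x ^ 3 ∧
      b = UniversalEnvelopingAlgebra.ι (ZMod 3) ((fun x : M2 => x ^ 3) x)
  let π : UniversalEnvelopingAlgebra (ZMod 3) M2 →ₐ[ZMod 3] RingQuot rel :=
    RingQuot.mkAlgHom (ZMod 3) rel
  let j : M2 → RingQuot rel := fun x => π (UniversalEnvelopingAlgebra.ι (ZMod 3) x)
  have jadd : ∀ x y, j (x + y) = j x + j y := by
    intro x y; simp only [j, map_add]
  have jsub : ∀ x y, j (x - y) = j x - j y := by
    intro x y; simp only [j, map_sub]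
  have jbr : ∀ x y, j x * j y - j y * j x = j (x * y - y * x) := by
    intro x y
    have : x * y - y * x = ⁅x, y⁆ := by rw [LieRing.of_associative_ring_bracket]
    rw [this]
    simp only [j]
    rw [LieHom.map_lie, LieRing.of_associative_ring_bracket, map_sub, map_mul, map_mul]
  have jcube : ∀ x, j x * j x * j x = j (x * x * x) := by
    intro x
    have h1 : π (UniversalEnvelopingAlgebra.ι (ZMod 3) x ^ 3)
        = π (UniversalEnvelopingAlgebra.ι (ZMod 3) (x ^ 3)) :=
      RingQuot.mkAlgHom_rel (ZMod 3) ⟨x, rfl, rfl⟩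
    rw [map_pow] at h1
    have h2 : x * x * x = x ^ 3 := by rw [pow_succ, pow_succ, pow_one]
    rw [h2]
    simp only [j]
    rw [← h1, pow_succ, pow_succ, pow_one]
  let E : M2 := !![0,1;0,0]
  let G : M2 := !![0,0;1,0]
  let D : M2 := !![1,0;0,-1]
  have c3 : (3 : RingQuot rel) = 0 := char3 _
  obtain ⟨hx2, hy2, hxy4⟩ := exists_xy (j E) (j G) (j D) (-(j D * j D + j D)) c3
    (by
      have := jbr E G
      have h2 : E * G - G * E = D := by decide
      rw [h2] at this
      rw [← this]; abel)
    (by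
      have := jbr D E
      have h2 : D * E - E * D = E + E := by decide
      rw [h2, jadd] at this
      calc j D * j E = j E * j D + (j D * j E - j E * j D) := by abel
        _ = _ := by rw [this]; noncomm_ring)
    (by
      have := jbr D G
      have h2 : D * G - G * D = 0 - (G + G) := by decide
      rw [h2, jsub, jadd] at this
      have h0 : j 0 = 0 := by simp [j]
      calc j D * j G = j G * j D + (j D * j G - j G * j D) := by abel
        _ = _ := by rw [this, h0]; noncomm_ring)
    (by
      rw [jcube]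
      have h2 : D * D * D = D := by decide
      rw [h2])
    (by
      rw [jcube]
      have h2 : G * G * G = 0 := by decide
      rw [h2]; simp [j])
    rfl
  obtain ⟨u, hu, hu00, hu01, hu10, hu11⟩ := mat_units _ _ hx2 hy2 hxy4
  -- the representation
  let ρ0 : UniversalEnvelopingAlgebra (ZMod 3) M2 →ₐ[ZMod 3] M2 :=
    UniversalEnvelopingAlgebra.lift (ZMod 3) (LieHom.id : M2 →ₗ⁅ZMod 3⁆ M2)
  have hρ0 : ∀ x : M2, ρ0 (UniversalEnvelopingAlgebra.ι (ZMod 3) x) = x := by
    intro x
    simp [ρ0]
  let ρ : RingQuot rel →ₐ[ZMod 3] M2 := RingQuot.liftAlgHom (ZMod 3) ⟨ρ0, by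
    rintro a b ⟨x, rfl, rfl⟩
    rw [map_pow, hρ0, hρ0]⟩
  have hρ : ∀ x : M2, ρ (j x) = x := by
    intro x
    simp only [ρ, j, π]
    rw [RingQuot.liftAlgHom_mkAlgHom_apply]
    exact hρ0 x
  have hρu : ∀ i k, ρ (u i k) = Matrix.single i k 1 := by
    intro i k
    have hρx : ρ (-(j D * j D + j D) * j E) = E := by
      simp only [map_mul, map_neg, map_add, hρ]; decide
    have hρy : ρ (j G * -(j D * j D + j D)) = G := by
      simp only [map_mul, map_neg, map_add, hρ]; decide
    have g00 : ∀ X Y : RingQuot rel, ρ ((X * Y) ^ 3) = (ρ X * ρ Y) ^ 3 := by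
      intro X Y; simp only [map_mul, map_pow]
    have g01 : ∀ X Y : RingQuot rel, ρ ((X * Y) ^ 2 * X) = (ρ X * ρ Y) ^ 2 * ρ X := by
      intro X Y; simp only [map_mul, map_pow]
    have g10 : ∀ X Y : RingQuot rel, ρ (Y * (X * Y) ^ 3) = ρ Y * (ρ X * ρ Y) ^ 3 := by
      intro X Y; simp only [map_mul, map_pow]
    have g11 : ∀ X Y : RingQuot rel, ρ (Y * (X * Y) ^ 2 * X) = ρ Y * (ρ X * ρ Y) ^ 2 * ρ X := by
      intro X Y; simp only [map_mul, map_pow]
    fin_cases i <;> fin_cases k
    · show ρ (u 0 0) = _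
      rw [hu00, g00, hρx, hρy]; decide
    · show ρ (u 0 1) = _
      rw [hu01, g01, hρx, hρy]; decide
    · show ρ (u 1 0) = _
      rw [hu10, g10, hρx, hρy]; decide
    · show ρ (u 1 1) = _
      rw [hu11, g11, hρx, hρy]; decide
  let φ : M2 →ₙₐ[ZMod 3] RingQuot rel :=
    { toFun := fun X => ∑ i, ∑ k, X i k • u i k
      map_smul' := by
        intro a X
        simp only [Matrix.smul_apply, smul_eq_mul, mul_smul, Finset.smul_sum, MonoidHom.id_apply]
      map_zero' := by simp
      map_add' := by
        intro X Y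
        simp only [Matrix.add_apply, add_smul, Finset.sum_add_distrib]
      map_mul' := by
        intro X Y
        simp only [Matrix.mul_apply, Fin.sum_univ_two, add_smul, mul_add, add_mul,
          smul_mul_assoc, mul_smul_comm, hu, smul_smul]
        simp
        module }
  have hφ : ∀ X, φ X = ∑ i, ∑ k, X i k • u i k := fun _ => rfl
  have hρφ : ∀ X, ρ (φ X) = X := by
    intro X
    rw [hφ, map_sum]
    simp only [map_sum, map_smul, hρu]
    ext a b
    fin_cases a <;> fin_cases b <;> simp [Fin.sum_univ_two, Matrix.single]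
  have hS4 : ∀ r : Fin 4 → RingQuot rel, (∀ i, r i ∈ NonUnitalAlgHom.range φ) →
      (∑ σ : Equiv.Perm (Fin 4),
            ((Equiv.Perm.sign σ : ℤˣ) : ℤ) • (List.ofFn fun i => r (σ i)).prod) = 0 := by
    intro r hr
    have : ∀ i, ∃ X : M2, φ X = r i := fun i => hr i
    choose X hX using this
    have h1 : ∀ σ : Equiv.Perm (Fin 4), ((Equiv.Perm.sign σ : ℤˣ) : ℤ) •
        (List.ofFn fun i => r (σ i)).prod
        = φ (((Equiv.Perm.sign σ : ℤˣ) : ℤ) • (List.ofFn fun i => X (σ i)).prod) := by
      intro σ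
      rw [map_zsmul, ← prod_ofFn_hom φ 3 (fun i => X (σ i))]
      congr 3
      funext i
      rw [hX]
    rw [Finset.sum_congr rfl (fun σ _ => h1 σ), ← map_sum, s4_zero, map_zero]
  have H3 := H2 (NonUnitalAlgHom.range φ) ?_ 2 (by norm_num) ?_ ?_
  · obtain ⟨k, hk⟩ := H3
    exact two_ne_pow k hk
  · -- PI
    refine ⟨4, _, s4_free_ne, ?_⟩
    intro r hr
    rw [map_sum]
    rw [← hS4 r hr]
    refine Finset.sum_congr rfl ?_
    intro σ _
    rw [map_zsmul, map_list_prod, List.map_ofFn]
    congr 3
    funext i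
    simp
  · refine ⟨1, le_refl _, ?_⟩
    intro r hr
    rw [pow_one]
    exact hS4 r hr
  · intro m hm1 hm2
    have : m = 1 := by omega
    subst this
    rintro ⟨t, ht, h⟩
    have h1 := h ![φ (Matrix.single 0 1 1), φ (Matrix.single 1 0 1)] (by
      intro i
      fin_cases i
      · exact ⟨_, rfl⟩
      · exact ⟨_, rfl⟩)
    have h2 := congrArg ρ h1
    rw [map_pow, map_zero, map_sum] at h2
    have h3 : (∑ σ : Equiv.Perm (Fin 2), ((Equiv.Perm.sign σ : ℤˣ) : ℤ) •
        (List.ofFn fun i => (![Matrix.single 0 1 1, Matrix.single 1 0 1] : Fin 2 → M2) (σ i)).prod)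
        = !![1,0;0,-1] := by decide +kernel
    have h4 : ∑ x : Equiv.Perm (Fin (2 * 1)), ρ (((Equiv.Perm.sign x : ℤˣ) : ℤ) •
        (List.ofFn fun i => (![φ (Matrix.single 0 1 1), φ (Matrix.single 1 0 1)] :
          Fin 2 → RingQuot rel) (x i)).prod) = !![1,0;0,-1] := by
      rw [← h3]
      refine Finset.sum_congr rfl ?_
      intro σ _
      rw [map_zsmul, map_list_prod, List.map_ofFn]
      congr 3
      funext i
      simp only [Function.comp]
      generalize (σ i : Fin 2) = q
      fin_cases q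
      · simp [hρφ]
      · simp [hρφ]
    rw [h4] at h2
    have h5 : ∀ t : ℕ, ((!![1,0;0,-1] : M2) ^ t) 0 0 = 1 := by
      intro t
      induction t with
      | zero => simp
      | succ t ih =>
        rw [pow_succ, Matrix.mul_apply, Fin.sum_univ_two, ih]
        simp
    have h6 := h5 t
    rw [h2] at h6
    simp at h6

end Pool.Agent.Work.MP_cacfbf_al
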